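import Pool.Agent.Helper26.LU.Goals

/-! # Project LU, packet E8 -/

set_option autoImplicit false

namespace Pool.Agent.Helper12.LU

open MeasureTheory Matrix Real Pool.Agent.Helper26.LU

/-- The part with exponent `κ` of the third variable, as a polynomial in the first one. -/
noncomputable def QE {N : ℕ} (l : ℕ) (b : Idx N → ℝ) (κ : Fin 2) : Polynomial ℂ :=
  ∑ α : Idx N with dg α = l, if α.1.2.2 = κ then
    Polynomial.C ((b α : ℂ) * Complex.I ^ (α.1.2.1 : ℕ)) * Polynomial.X ^ (α.1.1 : ℕ) else 0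

theorem QE_eval {N : ℕ} (l : ℕ) (b : Idx N → ℝ) (κ : Fin 2) (c : ℂ) :
    (QE l b κ).eval c = ∑ α : Idx N with dg α = l, if α.1.2.2 = κ then
      (b α : ℂ) * Complex.I ^ (α.1.2.1 : ℕ) * c ^ (α.1.1 : ℕ) else 0 := by
  unfold QE
  rw [Polynomial.eval_finsetSum]
  refine Finset.sum_congr rfl fun α _ => ?_
  split_ifs
  · rw [Polynomial.eval_mul, Polynomial.eval_C, Polynomial.eval_pow, Polynomial.eval_X]
  · rw [Polynomial.eval_zero]

theorem QE_coeff {N : ℕ} (l : ℕ) (b : Idx N → ℝ) (α0 : Idx N) (h : dg α0 = l) :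
    (QE l b α0.1.2.2).coeff (α0.1.1 : ℕ) = (b α0 : ℂ) * Complex.I ^ (α0.1.2.1 : ℕ) := by
  unfold QE
  rw [Polynomial.finsetSum_coeff, Finset.sum_eq_single α0]
  · rw [if_pos rfl, Polynomial.coeff_C_mul, Polynomial.coeff_X_pow, if_pos rfl, mul_one]
  · intro α hα hne
    rw [Finset.mem_filter] at hα
    split_ifs with hk
    · rw [Polynomial.coeff_C_mul, Polynomial.coeff_X_pow, if_neg, mul_zero]
      intro hi
      apply hne
      have h1 : (α.1.1 : ℕ) + (α.1.2.1 : ℕ) + (α.1.2.2 : ℕ) = l := hα.2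
      have h2 : (α0.1.1 : ℕ) + (α0.1.2.1 : ℕ) + (α0.1.2.2 : ℕ) = l := h
      rw [hk] at h1
      apply Subtype.ext
      refine Prod.ext (Fin.ext hi.symm) (Prod.ext (Fin.ext ?_) hk)
      omega
    · rw [Polynomial.coeff_zero]
  · intro h0
    exact absurd (by simpa using h) h0

/-- E8. -/
theorem gE8 : G_E8 := by
  intro N l b h α0 hα0
  -- the hypothesis at the rotations about the second axis
  have h1 : ∀ c s : ℝ, c ^ 2 + s ^ 2 = 1 →
      (QE l b 0).eval (c : ℂ) + (s : ℂ) * (QE l b 1).eval (c : ℂ) = 0 := by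
    intro c s hcs
    have hA : !![c, 0, -s; 0, 1, 0; s, 0, c] ∈ SO3 := by
      rw [mem_SO3]
      constructor
      · ext i j
        fin_cases i <;> fin_cases j <;>
          simp [Matrix.mul_apply, Fin.sum_univ_three] <;> nlinarith
      · simp [Matrix.det_fin_three]
        nlinarith
    have h2 := h _ hA
    rw [← h2, QE_eval, QE_eval, Finset.mul_sum, ← Finset.sum_add_distrib]
    refine Finset.sum_congr rfl fun α _ => ?_
    have e0 : (fun i => ((!![c, 0, -s; 0, 1, 0; s, 0, c] : M3) i 0 : ℂ) + Complex.I *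
        ((!![c, 0, -s; 0, 1, 0; s, 0, c] : M3) i 1 : ℂ)) = ![(c : ℂ), Complex.I, (s : ℂ)] := by
      funext i
      fin_cases i <;> simp
    rw [e0]
    unfold mon
    have hk : α.1.2.2 = 0 ∨ α.1.2.2 = 1 := by
      generalize α.1.2.2 = k
      fin_cases k <;> simp
    rcases hk with hk | hk
    · rw [hk, if_pos rfl, if_neg (by decide)]
      simp
      ring
    · rw [hk, if_neg (by decide), if_pos rfl]
      simp
      ring
  have h2 : ∀ κ : Fin 2, ∀ c : ℝ, c ∈ Set.Ioo (-1 : ℝ) 1 → (QE l b κ).eval (c : ℂ) = 0 := by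
    intro κ c hc
    have hpos : 0 < 1 - c ^ 2 := by nlinarith [hc.1, hc.2]
    set s : ℝ := Real.sqrt (1 - c ^ 2) with hs
    have hs0 : 0 < s := Real.sqrt_pos.2 hpos
    have hss : s ^ 2 = 1 - c ^ 2 := Real.sq_sqrt hpos.le
    have a1 := h1 c s (by linarith)
    have a2 := h1 c (-s) (by rw [neg_sq]; linarith)
    push_cast at a2
    have a3 : (QE l b 0).eval (c : ℂ) = 0 := by
      have : 2 * (QE l b 0).eval (c : ℂ) = 0 := by linear_combination a1 + a2
      simpa using this
    have a4 : (QE l b 1).eval (c : ℂ) = 0 := by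
      rw [a3, zero_add] at a1
      rcases mul_eq_zero.1 a1 with h | h
      · exfalso
        have : s = 0 := by exact_mod_cast h
        exact hs0.ne' this
      · exact h
    fin_cases κ
    · exact a3
    · exact a4
  have h3 : QE l b α0.1.2.2 = 0 := by
    apply Polynomial.eq_zero_of_infinite_isRoot
    have hinf : (Set.Ioo (-1 : ℝ) 1).Infinite := Set.Ioo_infinite (by norm_num)
    refine (hinf.image (f := fun c : ℝ => (c : ℂ)) Complex.ofReal_injective.injOn).mono ?_
    rintro _ ⟨c, hc, rfl⟩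
    exact h2 _ c hc
  have h4 := QE_coeff l b α0 hα0
  rw [h3, Polynomial.coeff_zero] at h4
  have h5 : (b α0 : ℂ) = 0 := by
    rcases mul_eq_zero.1 h4.symm with h | h
    · exact h
    · exact absurd h (pow_ne_zero _ Complex.I_ne_zero)
  exact_mod_cast h5

end Pool.Agent.Helper12.LU
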