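import Pool.Agent.Helper26.LU.Goals

/-! # Project LU, packet M6 -/

set_option autoImplicit false

namespace Pool.Agent.Helper12.LU

open MeasureTheory Matrix Real Pool.Agent.Helper26.LU

theorem ev_add {N : ℕ} (a b : Idx N → ℝ) (x : Fin 3 → ℝ) :
    ev (a + b) x = ev a x + ev b x := by
  unfold ev
  rw [← Finset.sum_add_distrib]
  exact Finset.sum_congr rfl fun t _ => by rw [Pi.add_apply, add_mul]

theorem ev_neg {N : ℕ} (a : Idx N → ℝ) (x : Fin 3 → ℝ) : ev (-a) x = - ev a x := by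
  unfold ev
  rw [← Finset.sum_neg_distrib]
  exact Finset.sum_congr rfl fun t _ => by rw [Pi.neg_apply, neg_mul]

/-- M6. -/
theorem gM6 : G_M6 := by
  intro N i j k
  induction k using Nat.strong_induction_on generalizing i j with
  | _ k ih =>
    intro h
    rcases Nat.lt_or_ge k 2 with hk | hk
    · refine ⟨Pi.single (⟨(⟨i, by omega⟩, ⟨j, by omega⟩, ⟨k, hk⟩), h⟩ : Idx N) 1, fun x _ => ?_⟩
      unfold ev
      rw [Finset.sum_eq_single (⟨(⟨i, by omega⟩, ⟨j, by omega⟩, ⟨k, hk⟩), h⟩ : Idx N)]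
      · rw [Pi.single_eq_same, one_mul]
        rfl
      · intro t _ ht
        rw [Pi.single_eq_of_ne ht, zero_mul]
      · intro ht
        exact absurd (Finset.mem_univ _) ht
    · obtain ⟨l, rfl⟩ : ∃ l, k = l + 2 := ⟨k - 2, by omega⟩
      obtain ⟨c1, h1⟩ := ih l (by omega) i j (by omega)
      obtain ⟨c2, h2⟩ := ih l (by omega) (i + 2) j (by omega)
      obtain ⟨c3, h3⟩ := ih l (by omega) i (j + 2) (by omega)
      refine ⟨c1 + -c2 + -c3, fun x hx => ?_⟩
      rw [ev_add, ev_add, ev_neg, ev_neg, ← h1 x hx, ← h2 x hx, ← h3 x hx]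
      have hs : x 0 * x 0 + x 1 * x 1 + x 2 * x 2 = 1 := by
        have : x ⬝ᵥ x = 1 := hx
        rwa [dotProduct, Fin.sum_univ_three] at this
      have hz : x 2 ^ 2 = 1 - x 0 ^ 2 - x 1 ^ 2 := by linarith
      rw [pow_add (x 2) l 2, hz]
      ring

end Pool.Agent.Helper12.LU
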